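import Pool.Agent.W5h81.KR.Asym

/-!
# The conjectured space/time tradeoff for `k`-reachability fails for every `k ≥ 4`

For all `k ≥ 1` and every small constant `τ > 0` there are word RAM data structures for
`k`-reachability in sparse directed graphs with `n` vertices with query time at most `n ^ τ` and
`n ^ (2 - 4 τ / (k + 1) + o(1))` words, that is `S T ^ (4 / (k + 1)) ≤ n ^ (2 + o(1))`. The
conjectured lower bound `S T ^ (2 / (k - 1)) ≥ n ^ (2 - o(1))` for `T ≤ n ^ δ` is therefore false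
for every `k ≥ 4` and every `δ > 0`, by a power of `n`.

Construction. The vertices are divided into classes according to the larger one of their two degrees,
rounded to a power of `t`; class `c` has `O(n / t ^ c)` vertices, of degree at most `t ^ (c + 1)`. For
each of the boundedly many sequences `a_0, …, a_k` of classes of the vertices of a walk (with loops)
from `u` to `v` one of the following is used. (1) Bidirectional search: if for some `i` there are at
most `t ^ N` walks from `u` to layer `i` and at most `t ^ N` walks from layer `i` to `v`, then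
the list of the vertices of layer `i` from which `v` is reached is compared with a dictionary of the
vertices reached from `u`. (2) Tables: if for some `i < j` the number of walks from `u` to layer `i`
times the number of walks from layer `j` to `v` is at most `t ^ N` and `a_i + a_j ≥ s`, then all
pairs are looked up in a table of size `O(n² / t ^ s)`. If `(s + 1) (k + 1) < 4 (N + 1)`, then (1) or
(2) is possible for every sequence of classes (`Pool.Agent.W5h81.KR.strategy`): otherwise, let `x(σ)`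
be the degree exponent of the layer which contains the point `σ` of `[0, N]` if the layers are
arranged from the side of `u`, and `y(σ)` the same for `N - σ` from the side of `v`; then
`x(σ) + y(σ) ≤ s + 1` and the sum of `1 / x(σ) + 1 / y(σ)` over all `σ` is at most `k + 1`.

The model is the word RAM of `Pool.Agent.H588R2.Model`. The query program is one fixed program
without write instructions, for all `k`, `n`, `τ`; only the content of the memory depends on them.
-/

set_option autoImplicit false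

namespace Pool.Agent.Results.MP_a349b4_lc.BidirectionalSearch

open Pool.Agent.W5h81.KR Pool.Agent.H588R2 Filter

/-- The lower bound `S T ^ (2 / (k - 1)) = Ω~(n²)` of the question for a fixed `k`, in a weak form:
for some `δ > 0` and some constant `C₀`, all word RAM data structures for `k`-reachability in
directed graphs with `n` vertices and at most `C₀ n` edges, with words of `O(log n)` bits and query
time `T n ≤ n ^ δ`, have space `S n` with `n² / (log n) ^ C ≤ S n * T n ^ (2 / (k - 1))` for some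
constant `C` and all large `n`. -/
def LowerBound (k : ℕ) : Prop :=
  ∃ (δ : ℝ) (C₀ : ℕ), 0 < δ ∧ ∀ (c : ℕ) (P : List Instr) (S T : ℕ → ℕ),
    (∀ᶠ n : ℕ in atTop, (T n : ℝ) ≤ (n : ℝ) ^ δ ∧ SolvesAll k C₀ c n (S n) (T n) P) →
    ∃ C : ℝ, ∀ᶠ n : ℕ in atTop,
      (n : ℝ) ^ 2 / Real.log n ^ C ≤ S n * (T n : ℝ) ^ (2 / ((k : ℝ) - 1))

/-- (1) There is one word RAM program without write instructions which, for all `k ≥ 1`, all `C₀`,
all `0 < τ ≤ 1/6` and all `ε > 0`, answers `k`-reachability queries in directed graphs with `n`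
vertices and at most `C₀ n` edges in time at most `n ^ τ` with at most `n ^ (2 - 4 τ / (k + 1) + ε)`
words of `5 (⌊log₂ n⌋ + 1)` bits, for all large `n`.
(2) So for all `k ≥ 4`, all `C₀` and all `δ > 0` there are data structures with query time
`T n ≤ n ^ δ` and space `S n` such that `S n * T n ^ (2 / (k - 1)) ≤ n ^ (2 - γ)` for some `γ > 0` and
all large `n`.
(3) The lower bound of the question is false for every `k ≥ 4`. -/
theorem result : ∃ P : List Instr, (∀ i ∈ P, ReadOnly i) ∧
    (∀ (k C₀ : ℕ) (τ ε : ℝ), 1 ≤ k → 0 < τ → τ ≤ 1 / 6 → 0 < ε →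
      ∃ S T : ℕ → ℕ, ∀ᶠ n : ℕ in atTop, (T n : ℝ) ≤ (n : ℝ) ^ τ ∧
        (S n : ℝ) ≤ (n : ℝ) ^ (2 - 4 * τ / (k + 1) + ε) ∧ SolvesAll k C₀ 5 n (S n) (T n) P) ∧
    (∀ (k C₀ : ℕ) (δ : ℝ), 4 ≤ k → 0 < δ →
      ∃ (S T : ℕ → ℕ) (γ : ℝ), 0 < γ ∧ ∀ᶠ n : ℕ in atTop, (T n : ℝ) ≤ (n : ℝ) ^ δ ∧
        (S n : ℝ) * (T n : ℝ) ^ (2 / ((k : ℝ) - 1)) ≤ (n : ℝ) ^ (2 - γ) ∧
        SolvesAll k C₀ 5 n (S n) (T n) P) ∧
    ∀ k : ℕ, 4 ≤ k → ¬ LowerBound k := by
  have part1 : ∀ (k C₀ : ℕ) (τ ε : ℝ), 1 ≤ k → 0 < τ → τ ≤ 1 / 6 → 0 < ε →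
      ∃ S T : ℕ → ℕ, ∀ᶠ n : ℕ in atTop, (T n : ℝ) ≤ (n : ℝ) ^ τ ∧
        (S n : ℝ) ≤ (n : ℝ) ^ (2 - 4 * τ / (k + 1) + ε) ∧
        SolvesAll k C₀ 5 n (S n) (T n) prog := by
    intro k C₀ τ ε hk h0 h6 hε
    obtain ⟨S, T, h⟩ := tradeoff k C₀ hk τ (min ε 1) h0 h6 (lt_min hε one_pos) (min_le_right _ _)
    refine ⟨S, T, ?_⟩
    filter_upwards [h, eventually_ge_atTop 1] with n hn hn1
    refine ⟨hn.1, hn.2.1.trans ?_, hn.2.2⟩
    apply Real.rpow_le_rpow_of_exponent_le (by exact_mod_cast hn1)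
    have := min_le_left ε 1
    linarith
  have part2 : ∀ (k C₀ : ℕ) (δ : ℝ), 4 ≤ k → 0 < δ →
      ∃ (S T : ℕ → ℕ) (γ : ℝ), 0 < γ ∧ ∀ᶠ n : ℕ in atTop, (T n : ℝ) ≤ (n : ℝ) ^ δ ∧
        (S n : ℝ) * (T n : ℝ) ^ (2 / ((k : ℝ) - 1)) ≤ (n : ℝ) ^ (2 - γ) ∧
        SolvesAll k C₀ 5 n (S n) (T n) prog := by
    intro k C₀ δ hk hδ
    have hkR : (4 : ℝ) ≤ k := by exact_mod_cast hk
    set τ := min δ (1 / 6) with hτ
    have hτ0 : 0 < τ := lt_min hδ (by norm_num)
    set g := 4 * τ / (k + 1) - 2 * τ / (k - 1) with hg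
    have hg0 : 0 < g := by
      have h1 : g = τ * (2 * (k - 3)) / ((k + 1) * (k - 1)) := by
        rw [hg, div_sub_div _ _ (by linarith) (by linarith)]
        congr 1
        ring
      rw [h1]
      apply div_pos
      · apply mul_pos hτ0
        linarith
      · apply mul_pos <;> linarith
    obtain ⟨S, T, h⟩ := part1 k C₀ τ (g / 2) (by omega) hτ0 (min_le_right _ _) (by linarith)
    refine ⟨S, T, g / 2, by linarith, ?_⟩
    filter_upwards [h, eventually_ge_atTop 1] with n hn hn1
    have hn1R : (1 : ℝ) ≤ n := by exact_mod_cast hn1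
    have hn0 : (0 : ℝ) < n := by linarith
    refine ⟨hn.1.trans (Real.rpow_le_rpow_of_exponent_le hn1R (min_le_left _ _)), ?_, hn.2.2⟩
    have h1 : (T n : ℝ) ^ (2 / ((k : ℝ) - 1)) ≤ (n : ℝ) ^ (2 * τ / (k - 1)) := by
      calc (T n : ℝ) ^ (2 / ((k : ℝ) - 1)) ≤ ((n : ℝ) ^ τ) ^ (2 / ((k : ℝ) - 1)) := by
            apply Real.rpow_le_rpow (by positivity) hn.1
            apply div_nonneg (by norm_num)
            linarith
        _ = (n : ℝ) ^ (2 * τ / (k - 1)) := by
            rw [← Real.rpow_mul hn0.le]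
            congr 1
            ring
    calc (S n : ℝ) * (T n : ℝ) ^ (2 / ((k : ℝ) - 1))
        ≤ (n : ℝ) ^ (2 - 4 * τ / (k + 1) + g / 2) * (n : ℝ) ^ (2 * τ / (k - 1)) :=
          mul_le_mul hn.2.1 h1 (by positivity) (by positivity)
      _ = (n : ℝ) ^ (2 - g / 2) := by
          rw [← Real.rpow_add hn0]
          congr 1
          rw [hg]
          ring
  refine ⟨prog, prog_readOnly, part1, part2, ?_⟩
  rintro k hk ⟨δ, C₀, hδ, h⟩
  obtain ⟨S, T, γ, hγ, h1⟩ := part2 k C₀ δ hk hδ
  obtain ⟨C, h2⟩ := h 5 prog S T (by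
    filter_upwards [h1] with n hn
    exact ⟨hn.1, hn.2.2⟩)
  have h3 := (isLittleO_log_rpow_rpow_atTop C hγ).comp_tendsto tendsto_natCast_atTop_atTop
  have h4 := h3.def (show (0 : ℝ) < 1 / 2 by norm_num)
  have h5 : Tendsto (fun n : ℕ => Real.log (n : ℝ)) atTop atTop :=
    Real.tendsto_log_atTop.comp tendsto_natCast_atTop_atTop
  obtain ⟨n, h6, h7, h8, h9, h10⟩ := (h1.and (h2.and (h4.and
    ((h5.eventually_gt_atTop 0).and (eventually_ge_atTop 1))))).exists
  have hn1R : (1 : ℝ) ≤ n := by exact_mod_cast h10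
  have hn0 : (0 : ℝ) < n := by linarith
  simp only [Function.comp_apply] at h8
  rw [Real.norm_of_nonneg (by positivity), Real.norm_of_nonneg (by positivity)] at h8
  have h11 : (0 : ℝ) < Real.log n ^ C := Real.rpow_pos_of_pos h9 C
  have h12 := h7.trans h6.2.1
  rw [div_le_iff₀ h11] at h12
  have h13 : (n : ℝ) ^ 2 = (n : ℝ) ^ (2 - γ) * (n : ℝ) ^ γ := by
    rw [← Real.rpow_add hn0, sub_add_cancel, Real.rpow_two]
  rw [h13] at h12
  have h14 : (0 : ℝ) < (n : ℝ) ^ (2 - γ) := Real.rpow_pos_of_pos hn0 _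
  have h15 := le_of_mul_le_mul_left h12 h14
  have h16 : (0 : ℝ) < (n : ℝ) ^ γ := Real.rpow_pos_of_pos hn0 _
  linarith

end Pool.Agent.Results.MP_a349b4_lc.BidirectionalSearch
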